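import Mathlib
import Pool.Agent.Lib.Pd40e3c.Main

open scoped Pointwise

namespace Pool.Agent.Lib.Pd40e3cE

open Pool.Agent.Lib.Pd40e3c

lemma boost_iter {G : Type} [AddCommGroup G] [DecidableEq G] {S X0 : Finset G}
    (hS : ZSF S) (hA : Anti S) (hX0 : X0 ⊆ S) (hb : S.card ≤ (ss (S \ X0)).card) (i : ℕ)
    (hi : i ≤ X0.card) :
    (∃ X ⊆ S, X0.card - i < X.card ∧ 2 * (ss X).card ≤ (ss S).card) ∨
    (∃ X ⊆ S, X.card = X0.card - i ∧ S.card ≤ (ss (S \ X)).card ∧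
      X0.card ^ 2 ≤ 4 * (ss (S \ X)).card + X.card ^ 2) := by
  induction i with
  | zero =>
    right
    exact ⟨X0, hX0, by simp, hb, by omega⟩
  | succ i ih =>
    rcases ih (by omega) with ⟨X, hX, h1, h2⟩ | ⟨X, hX, hXc, h1, h2⟩
    · left; exact ⟨X, hX, by omega, h2⟩
    · have hXne : X.Nonempty := by rw [← Finset.card_pos]; omega
      rcases step hS hA hX hXne with h | ⟨ξ, hξ, l, hl, hc⟩
      · left
        exact ⟨X, hX, by omega, h⟩
      · right
        have hXS : X.card ≤ S.card := Finset.card_le_card hX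
        rw [min_eq_right (by omega)] at hl
        refine ⟨X.erase ξ, (Finset.erase_subset _ _).trans hX, ?_, ?_, ?_⟩
        · rw [Finset.card_erase_of_mem hξ, hXc]; omega
        · rw [hc]; omega
        · rw [hc, Finset.card_erase_of_mem hξ]
          obtain ⟨x, hx⟩ : ∃ x, X.card = x + 1 := ⟨X.card - 1, by have := hXne.card_pos; omega⟩
          rw [hx] at h2 hl ⊢
          have : (x + 1) ^ 2 = x ^ 2 + 2 * x + 1 := by ring
          simp only [Nat.add_sub_cancel]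
          omega

/-- Improving the constant, with parameters: threshold `θ`, target `c`. -/
lemma boost {θ c : ℝ} (hθ0 : 0 < θ) (hθ1 : θ < 1) (hc : 4 * c < 1 - θ ^ 2) {a : ℝ} (ha : 0 < a)
    {N : ℕ} (hP : P a N) : ∃ N', P (min (2 * θ ^ 2 * a) c) N' := by
  -- choose the size of the initial part
  obtain ⟨δ, hδ0, hδ1, hδθ, hδ2⟩ : ∃ δ : ℝ, 0 < δ ∧ δ < 1 ∧ θ + δ < 1 ∧
      4 * c < (1 - δ) ^ 2 - θ ^ 2 := by
    have hc1 : 0 < (1 - θ ^ 2 - 4 * c) / 4 := by linarith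
    refine ⟨min ((1 - θ ^ 2 - 4 * c) / 4) ((1 - θ) / 2), lt_min hc1 (by linarith), ?_, ?_, ?_⟩
    · exact lt_of_le_of_lt (min_le_right _ _) (by linarith)
    · have := min_le_right ((1 - θ ^ 2 - 4 * c) / 4) ((1 - θ) / 2)
      linarith
    · have h1 := min_le_left ((1 - θ ^ 2 - 4 * c) / 4) ((1 - θ) / 2)
      nlinarith [sq_nonneg (min ((1 - θ ^ 2 - 4 * c) / 4) ((1 - θ) / 2))]
  set κ : ℝ := (1 - δ) ^ 2 - θ ^ 2 - 4 * c with hκ
  have hκ0 : 0 < κ := by rw [hκ]; linarith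
  have hη0 : 0 < 1 - δ - θ := by linarith
  obtain ⟨M, hM⟩ := exists_nat_ge (max (max (N / θ) (N / δ)) (max (1 / (a * δ ^ 2))
    (max (4 / κ) (2 / (1 - δ - θ)))))
  refine ⟨M, ?_⟩
  intro G _ _ S hS hA hN'
  set m := S.card with hm
  have hMm : (M : ℝ) ≤ m := by exact_mod_cast hN'
  have hMm' := hM.trans hMm
  have e1 : (N : ℝ) / θ ≤ m := (le_max_left _ _).trans ((le_max_left _ _).trans hMm')
  have e2 : (N : ℝ) / δ ≤ m := (le_max_right _ _).trans ((le_max_left _ _).trans hMm')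
  have e3 : 1 / (a * δ ^ 2) ≤ m := (le_max_left _ _).trans ((le_max_right _ _).trans hMm')
  have e4 : 4 / κ ≤ m :=
    (le_max_left _ _).trans ((le_max_right _ _).trans ((le_max_right _ _).trans hMm'))
  have e5 : 2 / (1 - δ - θ) ≤ m :=
    (le_max_right _ _).trans ((le_max_right _ _).trans ((le_max_right _ _).trans hMm'))
  rw [div_le_iff₀ hθ0] at e1
  rw [div_le_iff₀ hδ0] at e2
  rw [div_le_iff₀ (by positivity)] at e3
  rw [div_le_iff₀ hκ0] at e4
  rw [div_le_iff₀ hη0] at e5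
  have hmpos : (0 : ℝ) < m := by nlinarith
  -- initial part
  have hceil1 : (δ * m : ℝ) ≤ (⌈(δ * m : ℝ)⌉₊ : ℝ) := Nat.le_ceil _
  have hceil2 : ((⌈(δ * m : ℝ)⌉₊ : ℝ)) < δ * m + 1 := Nat.ceil_lt_add_one (by positivity)
  have hfl1 : ((⌊(θ * m : ℝ)⌋₊ : ℝ)) ≤ θ * m := Nat.floor_le (by positivity)
  have hfl2 : (θ * m : ℝ) < (⌊(θ * m : ℝ)⌋₊ : ℝ) + 1 := Nat.lt_floor_add_one _
  set s := ⌈(δ * m : ℝ)⌉₊ with hs
  set t := ⌊(θ * m : ℝ)⌋₊ with ht
  have hst : t + 1 + s ≤ m := by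
    have : (t : ℝ) + 1 + s ≤ m := by nlinarith
    exact_mod_cast this
  obtain ⟨S0, hS0, hS0c⟩ := Finset.exists_subset_card_eq (s := S) (n := s) (by omega)
  have hX0c : (S \ S0).card = m - s := by
    rw [Finset.card_sdiff_of_subset hS0, hS0c]
  have hss : S \ (S \ S0) = S0 := Finset.sdiff_sdiff_eq_self hS0
  have hS0b : (m : ℝ) ≤ ((ss S0).card : ℝ) := by
    have hNs : N ≤ S0.card := by
      rw [hS0c]
      have : (N : ℝ) ≤ s := by nlinarith
      exact_mod_cast this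
    have h1 := hP G S0 (hS.mono hS0) (hA.mono hS0) hNs
    have h2 : δ * (m : ℝ) ≤ (S0.card : ℝ) := by rw [hS0c]; exact hceil1
    have h3 : a * (δ * (m : ℝ)) ^ 2 ≤ a * (S0.card : ℝ) ^ 2 := by gcongr
    have h4 : (m : ℝ) ≤ a * (δ * (m : ℝ)) ^ 2 := by
      have : (1 : ℝ) * m ≤ (m * (a * δ ^ 2)) * m := mul_le_mul_of_nonneg_right e3 hmpos.le
      calc (m : ℝ) = 1 * m := (one_mul _).symm
        _ ≤ (m * (a * δ ^ 2)) * m := this
        _ = a * (δ * (m : ℝ)) ^ 2 := by ring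
    linarith
  have hb : S.card ≤ (ss (S \ (S \ S0))).card := by
    rw [hss]; exact_mod_cast hS0b
  rcases boost_iter hS hA (Finset.sdiff_subset : S \ S0 ⊆ S) hb
    ((S \ S0).card - (t + 1)) (by omega) with ⟨X, hX, h1, h2⟩ | ⟨X, hX, hXc, h1, h2⟩
  · have hXc : t + 1 < X.card := by omega
    have hXc' : (t : ℝ) + 1 < X.card := by exact_mod_cast hXc
    have hNX : N ≤ X.card := by
      have : (N : ℝ) ≤ X.card := by nlinarith
      exact_mod_cast this
    have h3 := hP G X (hS.mono hX) (hA.mono hX) hNX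
    have h6 : (2 : ℝ) * (ss X).card ≤ (ss S).card := by exact_mod_cast h2
    have h7 : a * (θ * (m : ℝ)) ^ 2 ≤ a * (X.card : ℝ) ^ 2 := by
      have : θ * (m : ℝ) ≤ X.card := by linarith
      gcongr
    have h9 : min (2 * θ ^ 2 * a) c * (m : ℝ) ^ 2 ≤ (2 * θ ^ 2 * a) * (m : ℝ) ^ 2 :=
      mul_le_mul_of_nonneg_right (min_le_left _ _) (sq_nonneg _)
    have h10 : (2 * θ ^ 2 * a) * (m : ℝ) ^ 2 = 2 * (a * (θ * (m : ℝ)) ^ 2) := by ring
    linarith
  · have h3 : (ss (S \ X)).card ≤ (ss S).card :=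
      Finset.card_le_card (ss_mono Finset.sdiff_subset)
    have hXc' : X.card = t + 1 := by omega
    have h5 : (X.card : ℝ) ≤ θ * m + 1 := by
      rw [hXc']; push_cast; linarith
    have h6 : (1 - δ) * (m : ℝ) - 1 ≤ ((S \ S0).card : ℝ) := by
      have : (((S \ S0).card : ℕ) : ℝ) = (m : ℝ) - s := by
        rw [hX0c, Nat.cast_sub (by omega)]
      rw [this]; linarith
    have h8 : ((S \ S0).card : ℝ) ^ 2 ≤ 4 * ((ss S).card : ℝ) + (X.card : ℝ) ^ 2 := by
      have : (S \ S0).card ^ 2 ≤ 4 * (ss S).card + X.card ^ 2 := by omega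
      exact_mod_cast this
    have h9 : min (2 * θ ^ 2 * a) c * (m : ℝ) ^ 2 ≤ c * (m : ℝ) ^ 2 :=
      mul_le_mul_of_nonneg_right (min_le_right _ _) (sq_nonneg _)
    have h0 : 0 ≤ (1 - δ) * (m : ℝ) - 1 := by nlinarith
    have h11 : ((1 - δ) * (m : ℝ) - 1) ^ 2 ≤ ((S \ S0).card : ℝ) ^ 2 :=
      pow_le_pow_left₀ h0 h6 2
    have h12 : (X.card : ℝ) ^ 2 ≤ (θ * m + 1) ^ 2 :=
      pow_le_pow_left₀ (Nat.cast_nonneg _) h5 2
    have h13 : 4 * (c * (m : ℝ) ^ 2) ≤ ((1 - δ) * (m : ℝ) - 1) ^ 2 - (θ * m + 1) ^ 2 := by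
      have h14 : ((1 - δ) * (m : ℝ) - 1) ^ 2 - (θ * m + 1) ^ 2 - 4 * (c * (m : ℝ) ^ 2)
          = m * (m * κ - 2 * (1 - δ) - 2 * θ) := by rw [hκ]; ring
      have h15 : 0 ≤ (m : ℝ) * (m * κ - 2 * (1 - δ) - 2 * θ) := by
        apply mul_nonneg hmpos.le
        linarith
      linarith
    linarith

/-- Every constant below `1/8` is eventually valid for sets without elements of order two. -/
theorem P_eighth {c : ℝ} (hc : c < 1 / 8) : ∃ N, P c N := by
  -- WLOG `c > 0`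
  obtain ⟨c', hc0, hcc, hc'⟩ : ∃ c' : ℝ, 0 < c' ∧ c ≤ c' ∧ c' < 1 / 8 := by
    refine ⟨max c (1 / 16), lt_of_lt_of_le (by norm_num) (le_max_right _ _), le_max_left _ _,
      max_lt hc (by norm_num)⟩
  suffices h : ∃ N, P c' N by
    obtain ⟨N, hN⟩ := h
    exact ⟨N, fun G _ _ S h1 h2 h3 =>
      (mul_le_mul_of_nonneg_right hcc (sq_nonneg _)).trans (hN G S h1 h2 h3)⟩
  -- the threshold
  obtain ⟨θ, hθ0, hθ1, hθ2, hθ3⟩ : ∃ θ : ℝ, 0 < θ ∧ θ < 1 ∧ 1 < 2 * θ ^ 2 ∧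
      4 * c' < 1 - θ ^ 2 := by
    set x : ℝ := (1 / 2 + (1 - 4 * c')) / 2 with hx
    have hx1 : 1 / 2 < x := by rw [hx]; linarith
    have hx2 : x < 1 - 4 * c' := by rw [hx]; linarith
    refine ⟨Real.sqrt x, Real.sqrt_pos.2 (by linarith), ?_, ?_, ?_⟩
    · rw [Real.sqrt_lt' (by norm_num)]; linarith
    · rw [Real.sq_sqrt (by linarith)]; linarith
    · rw [Real.sq_sqrt (by linarith)]; linarith
  have iter : ∀ k : ℕ, ∃ N, P (min ((2 * θ ^ 2) ^ k * (1 / 256)) c') N := by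
    intro k
    induction k with
    | zero =>
      refine ⟨0, fun G _ _ S h1 h2 h3 => ?_⟩
      refine (mul_le_mul_of_nonneg_right ?_ (sq_nonneg _)).trans (P_base G S h1 h2 h3)
      simpa using min_le_left (((2 * θ ^ 2) ^ 0 * (1 / 256) : ℝ)) c'
    | succ k ih =>
      obtain ⟨N, hN⟩ := ih
      have hpos : (0 : ℝ) < min ((2 * θ ^ 2) ^ k * (1 / 256)) c' := lt_min (by positivity) hc0
      obtain ⟨N', hN'⟩ := boost hθ0 hθ1 hθ3 hpos hN
      refine ⟨N', fun G _ _ S h1 h2 h3 => ?_⟩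
      refine le_trans (mul_le_mul_of_nonneg_right ?_ (sq_nonneg _)) (hN' G S h1 h2 h3)
      rcases le_total ((2 * θ ^ 2) ^ k * (1 / 256)) c' with h | h
      · rw [min_eq_left h, pow_succ]
        apply le_of_eq
        congr 1
        ring
      · rw [min_eq_right h]
        have : min (2 * θ ^ 2 * c') c' = c' := by
          apply min_eq_right
          nlinarith
        rw [this]
        exact min_le_right _ _
  obtain ⟨k, hk⟩ := pow_unbounded_of_one_lt (256 : ℝ) hθ2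
  obtain ⟨N, hN⟩ := iter k
  refine ⟨N, ?_⟩
  have : min ((2 * θ ^ 2) ^ k * (1 / 256)) c' = c' := by
    apply min_eq_right
    linarith
  rwa [this] at hN

/-- subset sums of a zero-sum-free set of elements of order two are all distinct -/
lemma two_pow_le {G : Type} [AddCommGroup G] [DecidableEq G] {S : Finset G}
    (hS : ZSF S) (h2 : ∀ x ∈ S, -x = x) : 2 ^ S.card ≤ (ss S).card := by
  rw [ss, Finset.card_image_of_injOn, Finset.card_powerset]
  intro T hT T' hT' hTT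
  have hT := Finset.mem_powerset.1 (Finset.mem_coe.1 hT)
  have hT' := Finset.mem_powerset.1 (Finset.mem_coe.1 hT')
  simp only at hTT
  by_contra hne
  have h1 : ∑ x ∈ T, x = ∑ x ∈ T \ T', x + ∑ x ∈ T ∩ T', x := by
    rw [add_comm]; exact (Finset.sum_inter_add_sum_sdiff _ _ _).symm
  have h3 : ∑ x ∈ T', x = ∑ x ∈ T' \ T, x + ∑ x ∈ T ∩ T', x := by
    rw [Finset.inter_comm, add_comm]; exact (Finset.sum_inter_add_sum_sdiff _ _ _).symm
  have h4 : ∑ x ∈ T \ T', x = ∑ x ∈ T' \ T, x := by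
    rw [h1, h3] at hTT
    exact add_right_cancel hTT
  have h5 : ∑ x ∈ T' \ T, x = - ∑ x ∈ T' \ T, x := by
    rw [← Finset.sum_neg_distrib]
    apply Finset.sum_congr rfl
    intro x hx
    exact (h2 x (hT' (Finset.mem_sdiff.1 hx).1)).symm
  have hsub : (T \ T') ∪ (T' \ T) ⊆ S := Finset.union_subset
    (Finset.sdiff_subset.trans hT) (Finset.sdiff_subset.trans hT')
  apply hS _ hsub
  · rw [Finset.nonempty_iff_ne_empty]
    intro he
    apply hne
    rw [Finset.union_eq_empty, Finset.sdiff_eq_empty_iff_subset,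
      Finset.sdiff_eq_empty_iff_subset] at he
    exact Finset.Subset.antisymm he.1 he.2
  · rw [Finset.sum_union, h4]
    · nth_rewrite 1 [h5]
      exact neg_add_cancel _
    · rw [Finset.disjoint_left]
      intro x hx hx'
      exact (Finset.mem_sdiff.1 hx').2 (Finset.mem_sdiff.1 hx).1

lemma mul_sq_le_two_pow (C : ℝ) : ∃ T : ℕ, ∀ t : ℕ, T ≤ t → C * (t : ℝ) ^ 2 ≤ 2 ^ t := by
  have h := tendsto_pow_const_div_const_pow_of_one_lt 2 (show (1 : ℝ) < 2 by norm_num)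
  have h2 : ∀ᶠ n : ℕ in Filter.atTop, (n : ℝ) ^ 2 / 2 ^ n < 1 / (|C| + 1) :=
    h.eventually (gt_mem_nhds (by positivity))
  obtain ⟨T, hT⟩ := Filter.eventually_atTop.1 h2
  refine ⟨T, fun t ht => ?_⟩
  have h3 := hT t ht
  rw [div_lt_div_iff₀ (by positivity) (by positivity), one_mul] at h3
  have h4 : C ≤ |C| + 1 := (le_abs_self C).trans (by linarith)
  have h5 : C * (t : ℝ) ^ 2 ≤ (|C| + 1) * (t : ℝ) ^ 2 := mul_le_mul_of_nonneg_right h4 (sq_nonneg _)
  linarith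

/-- Every constant below `1/8` is eventually valid for all zero-sum-free sets. -/
theorem main {c : ℝ} (hc : c < 1 / 8) : ∃ M : ℕ, ∀ (G : Type) [AddCommGroup G] [DecidableEq G]
    (A : Finset G), M ≤ A.card → ZSF A → c * (A.card : ℝ) ^ 2 + 1 ≤ ((ss A).card : ℝ) := by
  -- WLOG `c > 0`
  obtain ⟨c1, hc0, hcc, hc1⟩ : ∃ c' : ℝ, 0 < c' ∧ c ≤ c' ∧ c' < 1 / 8 := by
    refine ⟨max c (1 / 16), lt_of_lt_of_le (by norm_num) (le_max_right _ _), le_max_left _ _,
      max_lt hc (by norm_num)⟩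
  -- intermediate constants
  set c2 : ℝ := (c1 + 1 / 8) / 2 with hc2
  have h12 : c1 < c2 := by rw [hc2]; linarith
  have h28 : c2 < 1 / 8 := by rw [hc2]; linarith
  obtain ⟨N, hN⟩ := P_eighth h28
  -- proportion of elements of order two
  obtain ⟨δ, hδ0, hδ1, hδ2⟩ : ∃ δ : ℝ, 0 < δ ∧ δ < 1 ∧ c1 < c2 * (1 - δ) ^ 2 := by
    refine ⟨(c2 - c1) / 2, by linarith, by linarith, ?_⟩
    nlinarith [sq_nonneg ((c2 - c1) / 2)]
  set κ : ℝ := c2 * (1 - δ) ^ 2 - c1 with hκ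
  have hκ0 : 0 < κ := by rw [hκ]; linarith
  obtain ⟨T, hT⟩ := mul_sq_le_two_pow (2 / δ ^ 2)
  obtain ⟨M, hM⟩ := exists_nat_ge (max (max (N / (1 - δ)) (T / δ)) (max (1 / κ) 1))
  refine ⟨M, ?_⟩
  intro G _ _ A hAM hZ
  set m := A.card with hm
  have hMm : (M : ℝ) ≤ m := by exact_mod_cast hAM
  have hMm' := hM.trans hMm
  have e1 : (N : ℝ) / (1 - δ) ≤ m := (le_max_left _ _).trans ((le_max_left _ _).trans hMm')
  have e2 : (T : ℝ) / δ ≤ m := (le_max_right _ _).trans ((le_max_left _ _).trans hMm')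
  have e3 : 1 / κ ≤ m := (le_max_left _ _).trans ((le_max_right _ _).trans hMm')
  have e4 : (1 : ℝ) ≤ m := (le_max_right _ _).trans ((le_max_right _ _).trans hMm')
  rw [div_le_iff₀ (by linarith)] at e1
  rw [div_le_iff₀ hδ0] at e2
  rw [div_le_iff₀ hκ0] at e3
  have hmm : (m : ℝ) ≤ (m : ℝ) ^ 2 := by nlinarith
  have hfin : c * (m : ℝ) ^ 2 ≤ c1 * (m : ℝ) ^ 2 := mul_le_mul_of_nonneg_right hcc (sq_nonneg _)
  set A2 := A.filter (fun x => -x = x) with hA2
  set A1 := A.filter (fun x => ¬ (-x = x)) with hA1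
  have hsplit : A2.card + A1.card = m := Finset.card_filter_add_card_filter_not
    (s := A) (fun x => -x = x)
  have hsplitR : (A2.card : ℝ) + A1.card = m := by exact_mod_cast hsplit
  by_cases hbig : δ * m ≤ A2.card
  · have h1 : 2 ^ A2.card ≤ (ss A2).card :=
      two_pow_le (hZ.mono (Finset.filter_subset _ _)) (fun x hx => (Finset.mem_filter.1 hx).2)
    have h2 : (ss A2).card ≤ (ss A).card := Finset.card_le_card (ss_mono (Finset.filter_subset _ _))
    have hTc : T ≤ A2.card := by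
      have : (T : ℝ) ≤ A2.card := by linarith
      exact_mod_cast this
    have h3 := hT A2.card hTc
    have h4 : (2 : ℝ) ^ A2.card ≤ ((ss A).card : ℝ) := by exact_mod_cast h1.trans h2
    have h5 : 2 * (m : ℝ) ^ 2 ≤ 2 / δ ^ 2 * (A2.card : ℝ) ^ 2 := by
      have h6 : (δ * (m : ℝ)) ^ 2 ≤ (A2.card : ℝ) ^ 2 := pow_le_pow_left₀ (by positivity) hbig 2
      have h7 : 2 / δ ^ 2 * (δ * (m : ℝ)) ^ 2 = 2 * (m : ℝ) ^ 2 := by
        field_simp
      rw [← h7]
      gcongr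
    nlinarith
  · push Not at hbig
    have hanti : Anti A1 := by
      intro x hx hx'
      have hx1 := Finset.mem_filter.1 hx
      have hx2 := Finset.mem_filter.1 hx'
      have hne : x ≠ -x := fun h => hx1.2 h.symm
      apply hZ {x, -x}
      · intro y hy
        simp only [Finset.mem_insert, Finset.mem_singleton] at hy
        rcases hy with rfl | rfl
        · exact hx1.1
        · exact hx2.1
      · exact Finset.insert_nonempty _ _
      · rw [Finset.sum_pair hne, add_neg_cancel]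
    have hA1c : (1 - δ) * m ≤ A1.card := by linarith
    have hNc : N ≤ A1.card := by
      have : (N : ℝ) ≤ A1.card := by linarith
      exact_mod_cast this
    have h1 := hN G A1 (hZ.mono (Finset.filter_subset _ _)) hanti hNc
    have h2 : (ss A1).card ≤ (ss A).card := Finset.card_le_card (ss_mono (Finset.filter_subset _ _))
    have h3 : ((ss A1).card : ℝ) ≤ ((ss A).card : ℝ) := by exact_mod_cast h2
    have h5 : ((1 - δ) * (m : ℝ)) ^ 2 ≤ (A1.card : ℝ) ^ 2 :=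
      pow_le_pow_left₀ (mul_nonneg (by linarith) (Nat.cast_nonneg _)) hA1c 2
    have h6 : c2 * ((1 - δ) * (m : ℝ)) ^ 2 ≤ c2 * (A1.card : ℝ) ^ 2 := by
      apply mul_le_mul_of_nonneg_left h5; linarith
    have h7 : c2 * ((1 - δ) * (m : ℝ)) ^ 2 = κ * (m : ℝ) ^ 2 + c1 * (m : ℝ) ^ 2 := by
      rw [hκ]; ring
    have h8 : 1 ≤ κ * (m : ℝ) ^ 2 := by nlinarith
    linarith

end Pool.Agent.Lib.Pd40e3cE
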